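import Pool.Agent.H56.JW.Targets

/-!
# Row FA of the board jwq_modules: the outer graph
-/

set_option autoImplicit false

open Finset

namespace Pool.Agent.H44.JWQ

open Pool.Agent.H56.JW
open Pool.Agent.H44.HC (Link)

section
variable {V : Type} [Fintype V] [DecidableEq V] {G L : SimpleGraph V} {X : Finset V} {lab : V → V}
  {q : ℕ} {T1 T2 : Finset (Cn V)} {at' : V → Fin 2 → V}

omit [Fintype V] in
open Classical in
theorem adj_cases {J : Finset (Cn V)} {u v : V} (h : (FG L X T1 T2 J at').Adj u v) :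
    (L.Adj u v ∧ u ∉ iso (T1 ∪ T2) ∧ v ∉ iso (T1 ∪ T2)) ∨
    (∃ κ ∈ T1 ∪ T2, s(u, v) ∈ κ.E (stt T1 J κ)) ∨
    (∃ x j, Opn L X x j ∧ x ∉ iso (T1 ∪ T2) ∧ s(u, v) = s(x, at' x j)) := by
  unfold FG at h
  rw [SimpleGraph.fromEdgeSet_adj] at h
  rcases h.1 with (⟨h1, h2⟩ | h1) | h1
  · left
    refine ⟨h1, fun h3 => h2 u h3 (Sym2.mem_mk_left _ _), fun h3 => h2 v h3 (Sym2.mem_mk_right _ _)⟩
  · exact Or.inr (Or.inl h1)
  · exact Or.inr (Or.inr h1)

open Classical in
/-- edges inside `X` -/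
theorem adj_XX (hL : LinF G X L) (hS : Sel G L X lab q T1 T2 at') {J : Finset (Cn V)} {u v : V}
    (h : (FG L X T1 T2 J at').Adj u v) (hu : u ∈ X) (hv : v ∈ X) :
    (L.Adj u v ∧ u ∉ iso (T1 ∪ T2) ∧ v ∉ iso (T1 ∪ T2)) ∨
    (∃ κ ∈ T1 ∪ T2, u ∈ κ.D ∧ v ∈ κ.D) := by
  rcases adj_cases h with h1 | ⟨κ, hκ, h1⟩ | ⟨x, j, h1, _, h3⟩
  · exact Or.inl h1
  · exact Or.inr ⟨κ, hκ, (hS.val κ hκ).XX _ u v h1 hu hv⟩
  · exfalso
    have h4 := (hS.at1 x j h1).1
    rcases Sym2.eq_iff.1 h3 with ⟨_, h5⟩ | ⟨h5, _⟩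
    · exact h4 (h5 ▸ hv)
    · exact h4 (h5 ▸ hu)

omit [Fintype V] in
theorem mem_iso (T : Finset (Cn V)) (x : V) : x ∈ iso T ↔ ∃ κ ∈ T, x ∈ κ.D := by
  classical
  unfold iso
  rw [mem_biUnion]

open Classical in
/-- the neighbours in `X` of an isolated vertex -/
theorem adj_iso (hL : LinF G X L) (hS : Sel G L X lab q T1 T2 at') {J : Finset (Cn V)} {u : V}
    {κ : Cn V} (hκ : κ ∈ T1 ∪ T2) (hu : u ∈ κ.D) {v : V} (h : (FG L X T1 T2 J at').Adj u v)
    (hv : v ∈ X) : v ∈ κ.D.erase u := by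
  have hux : u ∈ X := (hS.val κ hκ).DX hu
  rcases adj_XX hL hS h hux hv with ⟨_, h1, _⟩ | ⟨κ', hκ', h1, h2⟩
  · exact absurd ((mem_iso _ _).2 ⟨κ, hκ, hu⟩) h1
  · have : κ' = κ := by
      by_contra hne
      have := hS.dis κ' hκ' κ hκ hne
      rw [Finset.disjoint_left] at this
      refine this (a := u) ?_ ?_
      · exact mem_union_left _ (mem_union_left _ h1)
      · exact mem_union_left _ (mem_union_left _ hu)
    subst this
    rw [mem_erase]
    exact ⟨h.ne.symm, h2⟩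

theorem acyc (hX : T_FDX) (hP : T_FDP) (hL : LinF G X L) (hS : Sel G L X lab q T1 T2 at')
    (J : Finset (Cn V)) (hJ : J ⊆ T2) : (FG L X T1 T2 J at').IsAcyclic := by
  classical
  intro w c hc
  have h1 : ∀ v ∈ c.support, v ∈ X := by
    intro v hv
    by_contra hvX
    have h2 := hc.ncard_neighborSet_toSubgraph_eq_two hv
    have h3 := (hP V G L X lab q T1 T2 at' hL hS J hJ v hvX).2
    have h4 : (c.toSubgraph.neighborSet v).ncard ≤ dg (FG L X T1 T2 J at') v := by
      unfold dg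
      exact Set.ncard_le_ncard (c.toSubgraph.neighborSet_subset v) (Set.toFinite _)
    omega
  have h2 : ∀ v ∈ c.support, v ∉ iso (T1 ∪ T2) := by
    intro v hv hvi
    obtain ⟨κ, hκ, hvD⟩ := (mem_iso _ _).1 hvi
    have h3 := hc.ncard_neighborSet_toSubgraph_eq_two hv
    have h4 : c.toSubgraph.neighborSet v ⊆ ((κ.D.erase v : Finset V) : Set V) := by
      intro u hu
      have h5 : (FG L X T1 T2 J at').Adj v u := c.toSubgraph.neighborSet_subset v hu
      have h6 : u ∈ c.support := by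
        have : c.toSubgraph.Adj v u := hu
        have := this.symm.fst_mem
        rwa [SimpleGraph.Walk.mem_verts_toSubgraph] at this
      exact adj_iso hL hS hκ hvD h5 (h1 u h6)
    have h5 := Set.ncard_le_ncard h4 (Set.toFinite _)
    rw [Set.ncard_coe_finset, card_erase_of_mem hvD] at h5
    have := (hS.val κ hκ).Dc
    omega
  have h3 : ∀ e ∈ c.edges, e ∈ L.edgeSet := by
    intro e
    induction e using Sym2.ind with
    | _ u v =>
      intro he
      have h4 := SimpleGraph.Walk.adj_of_mem_edges c he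
      have hu := SimpleGraph.Walk.fst_mem_support_of_mem_edges c he
      have hv := SimpleGraph.Walk.snd_mem_support_of_mem_edges c he
      rcases adj_XX hL hS h4 (h1 u hu) (h1 v hv) with ⟨h5, _⟩ | ⟨κ, hκ, h5, _⟩
      · exact h5
      · exact absurd ((mem_iso _ _).2 ⟨κ, hκ, h5⟩) (h2 u hu)
  exact hL.acy (c.transfer L h3) (hc.transfer h3)

end

theorem pf_FA (hX : T_FDX) (hP : T_FDP) : T_FA := by
  classical
  intro V _ _ G L X lab q T1 T2 at' hL hS J hJ
  refine ⟨?_, acyc hX hP hL hS J hJ, ?_, ?_, ?_⟩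
  · intro u v h
    rcases adj_cases h with ⟨h1, _⟩ | ⟨κ, hκ, h1⟩ | ⟨x, j, h1, _, h3⟩
    · exact hL.le h1
    · exact (hS.val κ hκ).adj _ _ h1
    · have h4 : G.Adj x (at' x j) := (hS.at1 x j h1).2
      have h5 : s(u, v) ∈ G.edgeSet := by
        rw [h3]
        exact h4
      exact h5
  · intro u v h hu hv
    rcases adj_cases h with ⟨h1, _⟩ | ⟨κ, hκ, h1⟩ | ⟨x, j, h1, _, h3⟩
    · exact absurd (hL.inX u v h1).1 hu
    · exact (hS.val κ hκ).PP _ u v h1 hu hv
    · exfalso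
      have h4 : x ∈ X := h1.1
      rcases Sym2.eq_iff.1 h3 with ⟨h5, _⟩ | ⟨_, h5⟩
      · exact hu (h5 ▸ h4)
      · exact hv (h5 ▸ h4)
  · intro u hu v hv
    have hKL : ∀ w ∉ X, ∀ w' ∉ X, lab w = lab w' →
        (FG L X T1 T2 J at' ⊔ KL X lab).Reachable w w' := by
      intro w hw w' hw' hl
      by_cases hne : w = w'
      · exact hne ▸ SimpleGraph.Reachable.refl _
      · apply SimpleGraph.Adj.reachable
        rw [SimpleGraph.sup_adj]
        exact Or.inr ⟨hne, hw, hw', hl⟩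
    have hab : ∀ κ ∈ T1, (FG L X T1 T2 J at' ⊔ KL X lab).Reachable κ.a κ.b := by
      intro κ hκ
      have hκ' : κ ∈ T1 ∪ T2 := mem_union_left _ hκ
      refine ((hS.val κ hκ').con).mono ?_
      refine le_trans ?_ le_sup_left
      unfold FG
      apply SimpleGraph.fromEdgeSet_mono
      intro e he
      refine Or.inl (Or.inr ⟨κ, hκ', ?_⟩)
      unfold stt
      rw [if_pos hκ]
      exact he
    have key : ∀ c c', Link (fun κ : Cn V => lab κ.a) (fun κ => lab κ.b) T1 c c' →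
        c = c' ∨ ((∃ w ∉ X, lab w = c) ∧ (∃ w ∉ X, lab w = c') ∧
          ∀ w ∉ X, ∀ w' ∉ X, lab w = c → lab w' = c' →
            (FG L X T1 T2 J at' ⊔ KL X lab).Reachable w w') := by
      intro c c' h
      induction h with
      | rel c c' h =>
        obtain ⟨κ, hκ, rfl, rfl⟩ := h
        have hv := hS.val κ (mem_union_left _ hκ)
        have ha := hv.PX _ hv.aP
        have hb := hv.PX _ hv.bP
        right
        refine ⟨⟨_, ha, rfl⟩, ⟨_, hb, rfl⟩, fun w hw w' hw' h1 h2 => ?_⟩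
        exact ((hKL w hw _ ha h1).trans (hab κ hκ)).trans (hKL _ hb w' hw' h2.symm)
      | refl c => exact Or.inl rfl
      | symm c c' _ ih =>
        rcases ih with rfl | ⟨h1, h2, h3⟩
        · exact Or.inl rfl
        · exact Or.inr ⟨h2, h1, fun w hw w' hw' e e' => (h3 w' hw' w hw e' e).symm⟩
      | trans c c' c'' _ _ ih ih' =>
        rcases ih with rfl | ⟨h1, h2, h3⟩
        · exact ih'
        · rcases ih' with rfl | ⟨h4, h5, h6⟩
          · exact Or.inr ⟨h1, h2, h3⟩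
          · obtain ⟨m, hm, hml⟩ := h2
            exact Or.inr ⟨h1, h5, fun w hw w' hw' e e' =>
              (h3 w hw m hm e hml).trans (h6 m hm w' hw' hml e')⟩
    rcases key _ _ (hS.lk1 u hu v hv) with h | ⟨_, _, h⟩
    · exact hKL u hu v hv h
    · exact h u hu v hv rfl rfl
  · intro u hu
    refine le_trans (card_le_card ?_) (hS.cap (lab u))
    intro v hv
    unfold trm at hv
    rw [mem_filter] at hv
    obtain ⟨hvc, hvd⟩ := hv
    unfold cls at hvc
    rw [mem_filter] at hvc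
    obtain ⟨_, hvX, hvl⟩ := hvc
    rw [mem_filter]
    refine ⟨?_, hvl⟩
    have h1 := (hP V G L X lab q T1 T2 at' hL hS J hJ v hvX).1
    rw [hvd] at h1
    unfold used
    rw [mem_union, mem_biUnion, mem_image]
    by_cases h2 : (∑ κ ∈ T1 ∪ T2, edeg (κ.E (stt T1 J κ)) v) = 0
    · right
      have h3 : (univ.filter fun e : V × Fin 2 => Opn L X e.1 e.2 ∧ e.1 ∉ iso (T1 ∪ T2) ∧
          at' e.1 e.2 = v).Nonempty := by
        rw [← card_pos]
        omega
      obtain ⟨e, he⟩ := h3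
      rw [mem_filter] at he
      exact ⟨e, by rw [mem_filter]; exact ⟨mem_univ _, he.2.1⟩, he.2.2.2⟩
    · left
      have h3 : ∃ κ ∈ T1 ∪ T2, edeg (κ.E (stt T1 J κ)) v ≠ 0 := by
        by_contra hcon
        push Not at hcon
        exact h2 (sum_eq_zero hcon)
      obtain ⟨κ, hκ, h4⟩ := h3
      refine ⟨κ, hκ, ?_⟩
      unfold edeg at h4
      obtain ⟨e, he⟩ := card_pos.1 (Nat.pos_of_ne_zero h4)
      rw [mem_filter] at he
      obtain ⟨y, hy⟩ := Sym2.mem_iff_exists.1 he.2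
      have h5 := (hS.val κ hκ).sup _ v y (hy ▸ he.1)
      rw [mem_union, mem_union] at h5
      rcases h5 with (h5 | h5) | h5
      · exact absurd ((hS.val κ hκ).DX h5) hvX
      · exfalso
        unfold nbs at h5
        rw [mem_filter] at h5
        obtain ⟨_, _, x, _, hx⟩ := h5
        exact hvX (hL.inX _ _ hx).1
      · exact h5

end Pool.Agent.H44.JWQ
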