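import Pool.Agent.H56.JW.Targets
import Pool.Agent.H44.HC.FIN

/-!
# Row MAIN of the board jwq_modules: quadratic connectivity
-/

set_option autoImplicit false

open Finset

namespace Pool.Agent.H44.JWQ

open Pool.Agent.H56.JW
open Pool.Agent.H44.HC (StarFree KConn Link)

theorem pf_MAIN (hP : T_PACK) (hL : T_LFE) (hN : T_LFN) (hC : T_CUT) (hE : T_ENDQ) (hX : T_HX)
    (hF : T_FST) (hA : T_ASM) : T_MAIN := by
  classical
  intro r c hr hc V _ _ G hk hf
  obtain ⟨s, rfl⟩ : ∃ s, r = s + 1 := ⟨r - 1, by omega⟩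
  rw [Nat.add_sub_cancel] at hc
  have hs : 1 ≤ s := by omega
  obtain ⟨X, lab, hpk⟩ := hP V G (s + 1) (400 * s) hr hf
  rw [Nat.add_sub_cancel] at hpk
  have hm : s * s + (2 * s - 1) * (400 * s) + 1 ≤ 801 * (s * s) := by
    have h1 : (2 * s - 1) * (400 * s) + 400 * s = 800 * (s * s) := by
      obtain ⟨t, rfl⟩ := Nat.exists_eq_add_of_le hs
      have : 2 * (1 + t) - 1 = 1 + 2 * t := by omega
      rw [this]
      ring
    omega
  generalize hmd : s * s + (2 * s - 1) * (400 * s) + 1 = m at hm hpk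
  obtain ⟨L, hLF⟩ := hL V G X
  have hcut := hC V G L X lab s m c hs hm hc hf hk hpk hLF
  have hend := hE V G L X lab s m c hs hm hc hf hk hpk hLF
  obtain ⟨F, hFS⟩ := hF V G L X lab (400 * s) hLF (hX V G L X lab (400 * s) hLF.deg hLF.inX
    hcut hend)
  refine hA V G X lab (400 * s) F (by omega) ?_ hpk.blk hFS
  by_contra hcon
  push Not at hcon
  have hne : Nonempty V := by
    have := hk.1
    exact Fintype.card_pos_iff.1 (by omega)
  obtain ⟨v⟩ := hne
  obtain ⟨N, hN1, hN2⟩ := Pool.Agent.H44.HC.kconn_deg hk v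
  have h1 := hpk.left v
  have h2 : N.card ≤ (univ.filter fun x => x ∈ X ∧ G.Adj v x).card := by
    apply card_le_card
    intro w hw
    rw [mem_filter]
    exact ⟨mem_univ _, hcon w, hN1 w hw⟩
  have h3 : 1 ≤ s * s := Nat.mul_pos hs hs
  omega

end Pool.Agent.H44.JWQ
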