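import Pool.Agent.H56.JW.Targets

/-!
# Row S2 of the board jwq_modules: connectors through one leftover vertex
-/

set_option autoImplicit false

open Finset

namespace Pool.Agent.H44.JWQ

open Pool.Agent.H56.JW

section
variable {V : Type} [Fintype V] [DecidableEq V]

theorem edeg_eq (E : Finset (Sym2 V)) (v : V) :
    edeg E v = (univ.filter fun u => s(v, u) ∈ E).card := by
  classical
  unfold edeg
  symm
  apply Finset.card_bij (fun u _ => s(v, u))
  · intro u hu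
    rw [mem_filter] at hu
    rw [mem_filter]
    exact ⟨hu.2, Sym2.mem_mk_left _ _⟩
  · intro u _ u' _ h
    exact Sym2.congr_right.1 h
  · intro e he
    rw [mem_filter] at he
    obtain ⟨y, hy⟩ := Sym2.mem_iff_exists.1 he.2
    refine ⟨y, ?_, hy.symm⟩
    rw [mem_filter]
    exact ⟨mem_univ _, hy ▸ he.1⟩

theorem nbs_card (L : SimpleGraph V) (x : V) (h : dg L x ≤ 2) : (nbs L {x}).card ≤ 2 := by
  classical
  refine le_trans ?_ h
  unfold dg
  rw [← Set.ncard_coe_finset]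
  apply Set.ncard_le_ncard _ (Set.toFinite _)
  intro s hs
  have : s ∈ nbs L {x} := hs
  unfold nbs at this
  rw [mem_filter] at this
  obtain ⟨_, _, y, hy, hsy⟩ := this
  rw [mem_singleton] at hy
  subst hy
  exact hsy.symm

/-- the edges -/
def Ed (x : V) (N : Finset V) (z : V → V) (p p' : V) : Finset (Sym2 V) :=
  N.image (fun s => s(s, z s)) ∪ {s(x, p), s(x, p')}

omit [Fintype V] in
theorem mem_Ed (x : V) (N : Finset V) (z : V → V) (p p' u v : V) :
    s(u, v) ∈ Ed x N z p p' ↔ (u ∈ N ∧ v = z u) ∨ (v ∈ N ∧ u = z v) ∨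
      (u = x ∧ (v = p ∨ v = p')) ∨ (v = x ∧ (u = p ∨ u = p')) := by
  unfold Ed
  simp only [mem_union, mem_image, mem_insert, mem_singleton, Sym2.eq_iff]
  constructor
  · rintro (⟨s, hs, ⟨rfl, rfl⟩ | ⟨rfl, rfl⟩⟩ | (⟨rfl, rfl⟩ | ⟨rfl, rfl⟩) | (⟨rfl, rfl⟩ | ⟨rfl, rfl⟩))
    · exact Or.inl ⟨hs, rfl⟩
    · exact Or.inr (Or.inl ⟨hs, rfl⟩)
    · exact Or.inr (Or.inr (Or.inl ⟨rfl, Or.inl rfl⟩))
    · exact Or.inr (Or.inr (Or.inr ⟨rfl, Or.inl rfl⟩))
    · exact Or.inr (Or.inr (Or.inl ⟨rfl, Or.inr rfl⟩))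
    · exact Or.inr (Or.inr (Or.inr ⟨rfl, Or.inr rfl⟩))
  · rintro (⟨h, rfl⟩ | ⟨h, rfl⟩ | ⟨rfl, rfl | rfl⟩ | ⟨rfl, rfl | rfl⟩)
    · exact Or.inl ⟨u, h, Or.inl ⟨rfl, rfl⟩⟩
    · exact Or.inl ⟨v, h, Or.inr ⟨rfl, rfl⟩⟩
    · exact Or.inr (Or.inl (Or.inl ⟨rfl, rfl⟩))
    · exact Or.inr (Or.inr (Or.inl ⟨rfl, rfl⟩))
    · exact Or.inr (Or.inl (Or.inr ⟨rfl, rfl⟩))
    · exact Or.inr (Or.inr (Or.inr ⟨rfl, rfl⟩))

/-- the data -/
structure Dat (X : Finset V) (x : V) (N : Finset V) (z : V → V) (y y' w : V) : Prop where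
  xX : x ∈ X
  NX : ∀ s ∈ N, s ∈ X
  xN : x ∉ N
  yX : y ∉ X
  yX' : y' ∉ X
  wX : w ∉ X
  zX : ∀ s ∈ N, z s ∉ X
  yy : y ≠ y'
  wy : w ≠ y
  wy' : w ≠ y'
  zy : ∀ s ∈ N, z s ≠ y
  zy' : ∀ s ∈ N, z s ≠ y'
  zw : ∀ s ∈ N, z s ≠ w
  zi : ∀ s ∈ N, ∀ s' ∈ N, z s = z s' → s = s'

variable {X : Finset V} {x : V} {N : Finset V} {z : V → V} {y y' w : V}

theorem deg_x (h : Dat X x N z y y' w) (p p' : V) (hp : p ∉ X) (hp' : p' ∉ X) (hne : p ≠ p') :
    edeg (Ed x N z p p') x = 2 := by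
  rw [edeg_eq]
  have : (univ.filter fun u => s(x, u) ∈ Ed x N z p p') = {p, p'} := by
    ext u
    rw [mem_filter, mem_Ed, mem_insert, mem_singleton]
    constructor
    · rintro ⟨_, ⟨h1, _⟩ | ⟨h1, h2⟩ | ⟨_, h1⟩ | ⟨_, h1 | h1⟩⟩
      · exact absurd h1 h.xN
      · exact absurd (h2 ▸ h.xX) (h.zX u h1)
      · exact h1
      · exact absurd (h1 ▸ h.xX) hp
      · exact absurd (h1 ▸ h.xX) hp'
    · intro h1
      exact ⟨mem_univ _, Or.inr (Or.inr (Or.inl ⟨rfl, h1⟩))⟩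
  rw [this, card_pair hne]

theorem deg_N (h : Dat X x N z y y' w) (p p' : V) (hp : p ∉ X) (hp' : p' ∉ X) (s : V)
    (hs : s ∈ N) : edeg (Ed x N z p p') s = 1 := by
  rw [edeg_eq]
  have : (univ.filter fun u => s(s, u) ∈ Ed x N z p p') = {z s} := by
    ext u
    rw [mem_filter, mem_Ed, mem_singleton]
    constructor
    · rintro ⟨_, ⟨_, h1⟩ | ⟨h1, h2⟩ | ⟨h1, _⟩ | ⟨_, h1 | h1⟩⟩
      · exact h1
      · exact absurd (h2 ▸ h.NX s hs) (h.zX u h1)
      · exact absurd (h1 ▸ hs) h.xN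
      · exact absurd (h1 ▸ h.NX s hs) hp
      · exact absurd (h1 ▸ h.NX s hs) hp'
    · intro h1
      exact ⟨mem_univ _, Or.inl ⟨hs, h1⟩⟩
  rw [this, card_singleton]

theorem deg_z (h : Dat X x N z y y' w) (p p' : V) (s : V)
    (hs : s ∈ N) (hp : p ≠ z s) (hp' : p' ≠ z s) : edeg (Ed x N z p p') (z s) = 1 := by
  rw [edeg_eq]
  have : (univ.filter fun u => s(z s, u) ∈ Ed x N z p p') = {s} := by
    ext u
    rw [mem_filter, mem_Ed, mem_singleton]
    constructor
    · rintro ⟨_, ⟨h1, _⟩ | ⟨h1, h2⟩ | ⟨h1, _⟩ | ⟨_, h1 | h1⟩⟩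
      · exact absurd (h.NX _ h1) (h.zX s hs)
      · exact (h.zi _ hs _ h1 h2).symm
      · exact absurd (h1 ▸ h.xX) (h.zX s hs)
      · exact absurd h1.symm hp
      · exact absurd h1.symm hp'
    · rintro rfl
      exact ⟨mem_univ _, Or.inr (Or.inl ⟨hs, rfl⟩)⟩
  rw [this, card_singleton]

theorem deg_p (h : Dat X x N z y y' w) (p p' v : V) (hv : v ∉ X) (hz : ∀ s ∈ N, z s ≠ v) :
    edeg (Ed x N z p p') v = if v = p ∨ v = p' then 1 else 0 := by
  rw [edeg_eq]
  have : (univ.filter fun u => s(v, u) ∈ Ed x N z p p') =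
      if v = p ∨ v = p' then {x} else ∅ := by
    ext u
    rw [mem_filter, mem_Ed]
    split_ifs with hv1
    · rw [mem_singleton]
      constructor
      · rintro ⟨_, ⟨h1, _⟩ | ⟨h1, h2⟩ | ⟨h1, _⟩ | ⟨h1, _⟩⟩
        · exact absurd (h.NX _ h1) hv
        · exact absurd h2.symm (hz u h1)
        · exact absurd (h1 ▸ h.xX) hv
        · exact h1
      · rintro rfl
        exact ⟨mem_univ _, Or.inr (Or.inr (Or.inr ⟨rfl, hv1⟩))⟩
    · constructor
      · rintro ⟨_, ⟨h1, _⟩ | ⟨h1, h2⟩ | ⟨h1, _⟩ | ⟨_, h1⟩⟩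
        · exact absurd (h.NX _ h1) hv
        · exact absurd h2.symm (hz u h1)
        · exact absurd (h1 ▸ h.xX) hv
        · exact absurd h1 hv1
      · intro h1
        exact absurd h1 (notMem_empty _)
  rw [this]
  split_ifs <;> simp

end

theorem pf_S2 (hS : T_SLT) (hC : T_CHZ) : T_S2 := by
  classical
  intro V _ _ G L X lab q U x y y' hdL hLX hx hy hy' hxy hxy' hlab
  have hxX : x ∈ X := hx.1.1
  have hyX : y ∉ X := hy.1
  have hyX' : y' ∉ X := hy'.1
  have hyy : y ≠ y' := fun h => hlab (congrArg lab h)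
  have hN2 := nbs_card L x (hdL x)
  have hNm : ∀ s, s ∈ nbs L {x} ↔ L.Adj s x := by
    intro s
    unfold nbs
    rw [mem_filter]
    constructor
    · rintro ⟨_, _, t, ht, hst⟩
      rw [mem_singleton] at ht
      exact ht ▸ hst
    · intro h
      refine ⟨mem_univ _, ?_, x, mem_singleton_self _, h⟩
      rw [mem_singleton]
      exact h.ne
  obtain ⟨z0, hz0, -⟩ := hC V G X lab q U {x} {y, y'} (by
    have := card_le_two (a := y) (b := y')
    rw [card_singleton]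
    omega) (by
    intro s hs
    rw [mem_singleton] at hs
    exact hs ▸ hx.1)
  obtain ⟨hwF, hxw, hwA⟩ := hz0 x (mem_singleton_self _)
  generalize z0 x = w at hwF hxw hwA
  rw [mem_insert, mem_singleton, not_or] at hwA
  obtain ⟨z, hz, hzi⟩ := hC V G X lab q U (nbs L {x}) {y, y', w} (by
    have := card_le_three (a := y) (b := y') (c := w)
    omega) (by
    intro s hs
    exact hx.2 s ((hNm s).1 hs).symm)
  generalize hN : nbs L {x} = N at hz hzi hN2 hNm
  have hD : Dat X x N z y y' w := by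
    refine ⟨hxX, fun s hs => (hLX s x ((hNm s).1 hs)).1, fun h => ((hNm x).1 h).ne rfl, hyX, hyX',
      hwF.1, fun s hs => (hz s hs).1.1, hyy, hwA.1, hwA.2, ?_, ?_, ?_, hzi⟩
    · intro s hs h
      exact (hz s hs).2.2 (by rw [h]; simp)
    · intro s hs h
      exact (hz s hs).2.2 (by rw [h]; simp)
    · intro s hs h
      exact (hz s hs).2.2 (by rw [h]; simp)
  have hPm : ∀ p, p ∈ ({y, y', w} ∪ N.image z : Finset V) ↔
      p = y ∨ p = y' ∨ p = w ∨ ∃ s ∈ N, z s = p := by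
    intro p
    simp only [mem_union, mem_insert, mem_singleton, mem_image, or_assoc]
  have hPF : ∀ p ∈ ({y, y', w} ∪ N.image z : Finset V), FrP X lab q U p := by
    intro p hp
    rcases (hPm p).1 hp with rfl | rfl | rfl | ⟨s, hs, rfl⟩
    · exact hy
    · exact hy'
    · exact hwF
    · exact (hz s hs).1
  have hPc : ({y, y', w} ∪ N.image z : Finset V).card ≤ 8 := by
    refine le_trans (card_union_le _ _) ?_
    have h1 := card_le_three (a := y) (b := y') (c := w)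
    have h2 := card_image_le (s := N) (f := z)
    omega
  generalize hP : ({y, y', w} ∪ N.image z : Finset V) = P at hPm hPF hPc
  obtain ⟨τ, hτ1, hτ2, hτ3⟩ := hS V lab q U P hPc fun p hp => (hPF p hp).2.2
  -- the ends of the two edges at x
  let p1 : Fin 3 → V := ![y, w, w]
  let p2 : Fin 3 → V := ![y', y, y']
  have hp1P : ∀ i, p1 i ∈ P := by
    intro i
    rw [hPm]
    fin_cases i
    · exact Or.inl rfl
    · exact Or.inr (Or.inr (Or.inl rfl))
    · exact Or.inr (Or.inr (Or.inl rfl))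
  have hp2P : ∀ i, p2 i ∈ P := by
    intro i
    rw [hPm]
    fin_cases i
    · exact Or.inr (Or.inl rfl)
    · exact Or.inl rfl
    · exact Or.inr (Or.inl rfl)
  have hp12 : ∀ i, p1 i ≠ p2 i := by
    intro i
    fin_cases i
    · exact hyy
    · exact hwA.1
    · exact hwA.2
  have hPX : ∀ p ∈ P, p ∉ X := fun p hp => (hPF p hp).1
  have hxp : ∀ p, p = y ∨ p = y' ∨ p = w → G.Adj x p := by
    rintro p (rfl | rfl | rfl)
    · exact hxy
    · exact hxy'
    · exact hxw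
  have hp1y : ∀ i, p1 i = y ∨ p1 i = y' ∨ p1 i = w := by
    intro i
    fin_cases i
    · exact Or.inl rfl
    · exact Or.inr (Or.inr rfl)
    · exact Or.inr (Or.inr rfl)
  have hp2y : ∀ i, p2 i = y ∨ p2 i = y' ∨ p2 i = w := by
    intro i
    fin_cases i
    · exact Or.inr (Or.inl rfl)
    · exact Or.inl rfl
    · exact Or.inr (Or.inl rfl)
  have hzne : ∀ s ∈ N, ∀ p, p = y ∨ p = y' ∨ p = w → p ≠ z s := by
    rintro s hs p (rfl | rfl | rfl)
    · exact (hD.zy s hs).symm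
    · exact (hD.zy' s hs).symm
    · exact (hD.zw s hs).symm
  have hzP : ∀ s ∈ N, z s ∈ P := fun s hs => (hPm _).2 (Or.inr (Or.inr (Or.inr ⟨s, hs, rfl⟩)))
  let κ : Cn V := ⟨{x}, P, y, y', fun i => Ed x N z (p1 i) (p2 i)⟩
  have hval : κ.Valid G L X lab := by
    refine ⟨?_, ?_, hPX, hPc, ?_, ?_, hlab, ?_, ?_, ?_, ?_, ?_, ?_, ?_, ?_, ?_⟩
    · intro v hv
      have : v = x := mem_singleton.1 hv
      exact this ▸ hxX
    · change ({x} : Finset V).card ≤ 2
      rw [card_singleton]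
      omega
    · exact (hPm y).2 (Or.inl rfl)
    · exact (hPm y').2 (Or.inr (Or.inl rfl))
    · intro i e
      induction e using Sym2.ind with
      | _ u v =>
        intro he
        change s(u, v) ∈ Ed x N z (p1 i) (p2 i) at he
        rw [mem_Ed] at he
        rw [SimpleGraph.mem_edgeSet]
        rcases he with ⟨h1, rfl⟩ | ⟨h1, rfl⟩ | ⟨rfl, rfl | rfl⟩ | ⟨rfl, rfl | rfl⟩
        · exact (hz u h1).2.1
        · exact (hz v h1).2.1.symm
        · exact hxp _ (hp1y i)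
        · exact hxp _ (hp2y i)
        · exact (hxp _ (hp1y i)).symm
        · exact (hxp _ (hp2y i)).symm
    · intro i u v he
      change s(u, v) ∈ Ed x N z (p1 i) (p2 i) at he
      change u ∈ {x} ∪ nbs L {x} ∪ P
      rw [mem_Ed] at he
      rw [hN, mem_union, mem_union, mem_singleton]
      rcases he with ⟨h1, rfl⟩ | ⟨h1, rfl⟩ | ⟨rfl, rfl | rfl⟩ | ⟨rfl, rfl | rfl⟩
      · exact Or.inl (Or.inr h1)
      · exact Or.inr (hzP v h1)
      · exact Or.inl (Or.inl rfl)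
      · exact Or.inl (Or.inl rfl)
      · exact Or.inr (hp1P i)
      · exact Or.inr (hp2P i)
    · intro i u v he hu hv
      change s(u, v) ∈ Ed x N z (p1 i) (p2 i) at he
      rw [mem_Ed] at he
      exfalso
      rcases he with ⟨h1, rfl⟩ | ⟨h1, rfl⟩ | ⟨rfl, rfl | rfl⟩ | ⟨rfl, rfl | rfl⟩
      · exact hD.zX _ h1 hv
      · exact hD.zX _ h1 hu
      · exact hPX _ (hp1P i) hv
      · exact hPX _ (hp2P i) hv
      · exact hPX _ (hp1P i) hu
      · exact hPX _ (hp2P i) hu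
    · intro i u v he hu hv
      change s(u, v) ∈ Ed x N z (p1 i) (p2 i) at he
      rw [mem_Ed] at he
      exfalso
      rcases he with ⟨h1, rfl⟩ | ⟨h1, rfl⟩ | ⟨rfl, rfl | rfl⟩ | ⟨rfl, rfl | rfl⟩
      · exact hu (hD.NX _ h1)
      · exact hv (hD.NX _ h1)
      · exact hu hxX
      · exact hu hxX
      · exact hv hxX
      · exact hv hxX
    · intro i v hv
      have hvx : v = x := mem_singleton.1 hv
      subst hvx
      exact deg_x hD _ _ (hPX _ (hp1P i)) (hPX _ (hp2P i)) (hp12 i)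
    · intro i s hs
      change s ∈ nbs L {x} at hs
      rw [hN] at hs
      change edeg (Ed x N z (p1 i) (p2 i)) s = pdeg L {x} s
      rw [deg_N hD _ _ (hPX _ (hp1P i)) (hPX _ (hp2P i)) s hs]
      unfold pdeg
      rw [filter_singleton, if_pos ((hNm s).1 hs), card_singleton]
    · intro i p hp
      change edeg (Ed x N z (p1 i) (p2 i)) p ≤ 1
      by_cases hpz : ∃ s ∈ N, z s = p
      · obtain ⟨s, hs, rfl⟩ := hpz
        exact (deg_z hD _ _ s hs (hzne s hs _ (hp1y i)) (hzne s hs _ (hp2y i))).le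
      · push Not at hpz
        rw [deg_p hD _ _ p (hPX p hp) hpz]
        split_ifs <;> omega
    · change (SimpleGraph.fromEdgeSet (Ed x N z y y' : Set (Sym2 V))).Reachable y y'
      have h1 : (SimpleGraph.fromEdgeSet (Ed x N z y y' : Set (Sym2 V))).Adj y x := by
        rw [SimpleGraph.fromEdgeSet_adj]
        refine ⟨?_, fun h => hyX (h ▸ hxX)⟩
        rw [mem_coe, mem_Ed]
        exact Or.inr (Or.inr (Or.inr ⟨rfl, Or.inl rfl⟩))
      have h2 : (SimpleGraph.fromEdgeSet (Ed x N z y y' : Set (Sym2 V))).Adj x y' := by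
        rw [SimpleGraph.fromEdgeSet_adj]
        refine ⟨?_, fun h => hyX' (h ▸ hxX)⟩
        rw [mem_coe, mem_Ed]
        exact Or.inr (Or.inr (Or.inl ⟨rfl, Or.inr rfl⟩))
      exact h1.reachable.trans h2.reachable
    · intro c
      change (∑ p ∈ P.filter (fun p => lab p = c),
        (edeg (Ed x N z w y) p + edeg (Ed x N z w y') p)) % 2 =
        ((if lab y = c then 1 else 0) + (if lab y' = c then 1 else 0)) % 2
      have key : ∀ p ∈ P.filter (fun p => lab p = c),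
          edeg (Ed x N z w y) p + edeg (Ed x N z w y') p =
            ((if p = y then 1 else 0) + (if p = y' then 1 else 0)) +
              2 * (if p = y ∨ p = y' then 0 else 1) := by
        intro p hp
        rw [mem_filter] at hp
        have hpP := hp.1
        rcases (hPm p).1 hpP with rfl | rfl | rfl | ⟨s, hs, rfl⟩
        · rw [deg_p hD _ _ _ hyX hD.zy, deg_p hD _ _ _ hyX hD.zy]
          simp [hyy, Ne.symm hwA.1]
        · rw [deg_p hD _ _ _ hyX' hD.zy', deg_p hD _ _ _ hyX' hD.zy']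
          simp [hyy.symm, Ne.symm hwA.2]
        · rw [deg_p hD _ _ _ hD.wX hD.zw, deg_p hD _ _ _ hD.wX hD.zw]
          simp [hwA.1, hwA.2]
        · rw [deg_z hD _ _ s hs (hzne s hs _ (Or.inr (Or.inr rfl))) (hzne s hs _ (Or.inl rfl)),
            deg_z hD _ _ s hs (hzne s hs _ (Or.inr (Or.inr rfl)))
              (hzne s hs _ (Or.inr (Or.inl rfl)))]
          simp [hD.zy s hs, hD.zy' s hs]
      rw [sum_congr rfl key, sum_add_distrib, sum_add_distrib, ← mul_sum, sum_ite_eq', sum_ite_eq',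
        Nat.add_mul_mod_self_left]
      have hyP : y ∈ P := (hPm y).2 (Or.inl rfl)
      have hyP' : y' ∈ P := (hPm y').2 (Or.inr (Or.inl rfl))
      simp only [mem_filter, hyP, hyP', true_and]
  refine ⟨κ, τ, hval, ⟨hτ1, hτ2, ?_, hτ3⟩, rfl, rfl⟩
  intro v hv
  change v ∈ {x} ∪ nbs L {x} ∪ P at hv
  rw [hN, mem_union, mem_union, mem_singleton] at hv
  rcases hv with (rfl | hv) | hv
  · exact hx.1.2.1
  · exact (hx.2 v ((hNm v).1 hv).symm).2.1
  · exact (hPF v hv).2.1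

end Pool.Agent.H44.JWQ
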